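import Mathlib

/-!
# Infinite transitive avoidance games: definitions and lemmas (MP_675c19_co)
-/

set_option autoImplicit false

namespace Pool.Agent.H809AV

open Set

variable {V : Type}

/-- `A` contains no line -/
def Safe (𝓛 : Set (Set V)) (A : Set V) : Prop := ∀ L ∈ 𝓛, ¬ L ⊆ A

/-- The positions (P1 to move, P1 holds `A`, P2 holds `B`) from which P1 wins in finitely many moves: P1 has a free
point `x` that completes no line of his own, such that after every free point `y` chosen by P2 either P2 has completed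
a line, or the new position is again winning for P1. -/
inductive WinPos (𝓛 : Set (Set V)) : Set V → Set V → Prop
  | move (A B : Set V) (x : V) (hx : x ∉ A ∪ B) (hs : Safe 𝓛 (insert x A))
      (h : ∀ y, y ∉ insert x A ∪ B → Safe 𝓛 (insert y B) → WinPos 𝓛 (insert x A) (insert y B)) :
      WinPos 𝓛 A B

/-- P1 wins the avoidance game `(V, 𝓛)` -/
def P1Win (𝓛 : Set (Set V)) : Prop := WinPos 𝓛 ∅ ∅

/-- an automorphism of the game -/
def IsAut (𝓛 : Set (Set V)) (g : Equiv.Perm V) : Prop := ∀ L : Set V, g '' L ∈ 𝓛 ↔ L ∈ 𝓛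

/-- the automorphism group is transitive on the points -/
def Transitive (𝓛 : Set (Set V)) : Prop := ∀ x y : V, ∃ g : Equiv.Perm V, IsAut 𝓛 g ∧ g x = y

theorem Safe.mono {𝓛 : Set (Set V)} {A B : Set V} (h : Safe 𝓛 B) (hAB : A ⊆ B) : Safe 𝓛 A :=
  fun L hL hLA => h L hL (hLA.trans hAB)

theorem safe_image {𝓛 : Set (Set V)} {g : Equiv.Perm V} (hg : IsAut 𝓛 g) (A : Set V) :
    Safe 𝓛 (g '' A) ↔ Safe 𝓛 A := by
  constructor
  · intro h L hL hLA
    exact h (g '' L) ((hg L).2 hL) (image_mono hLA)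
  · intro h L hL hLA
    have e : g '' (g.symm '' L) = L := by
      rw [← image_comp]
      simp
    refine h (g.symm '' L) ((hg _).1 (by rw [e]; exact hL)) ?_
    rintro _ ⟨z, hz, rfl⟩
    obtain ⟨a, ha, rfl⟩ := hLA hz
    simpa using ha

theorem WinPos.image {𝓛 : Set (Set V)} {g : Equiv.Perm V} (hg : IsAut 𝓛 g) {A B : Set V}
    (h : WinPos 𝓛 A B) : WinPos 𝓛 (g '' A) (g '' B) := by
  induction h with
  | move A B x hx hs _ ih =>
    refine WinPos.move _ _ (g x) ?_ ?_ ?_
    · rw [← image_union]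
      rintro ⟨z, hz, hzx⟩
      rw [g.injective hzx] at hz
      exact hx hz
    · rw [← image_insert_eq]
      exact (safe_image hg _).2 hs
    · intro y hy hys
      obtain ⟨y, rfl⟩ := g.surjective y
      rw [← image_insert_eq, ← image_insert_eq]
      rw [← image_insert_eq, ← image_union] at hy
      rw [← image_insert_eq, safe_image hg] at hys
      exact ih y (fun hh => hy ⟨y, hh, rfl⟩) hys

/-- If the pair `v`, `w` contains a line and P1 holds `v`, P2 holds `w`, then P1 does not win when P2, as if he were the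
first player and `v` were free, has a winning position. -/
theorem steal {𝓛 : Set (Set V)} {v w : V} (hvw : ¬ Safe 𝓛 {v, w}) {A B : Set V} (h : WinPos 𝓛 A B) :
    ∀ A' : Set V, A = insert v A' → w ∈ B →
      (∀ y, y ∉ B ∪ A' → Safe 𝓛 (insert y A') → WinPos 𝓛 B (insert y A')) → False := by
  induction h with
  | move A B x hx hs _ ih =>
    intro A' hA hw him
    subst hA
    have hx' : x ∉ B ∪ A' := by
      rintro (hh | hh)
      · exact hx (Or.inr hh)
      · exact hx (Or.inl (mem_insert_of_mem _ hh))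
    have hs' : Safe 𝓛 (insert x A') := hs.mono (insert_subset_insert (subset_insert _ _))
    have h1 := him x hx' hs'
    cases h1 with
    | move _ _ z hz hsz hnext =>
      have hzv : z ≠ v := by
        rintro rfl
        refine hvw (hsz.mono ?_)
        rintro a (rfl | rfl)
        · exact mem_insert _ _
        · exact mem_insert_of_mem _ hw
      have hz1 : z ∉ insert x (insert v A') ∪ B := by
        rintro ((rfl | rfl | hh) | hh)
        · exact hz (Or.inr (mem_insert _ _))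
        · exact hzv rfl
        · exact hz (Or.inr (mem_insert_of_mem _ hh))
        · exact hz (Or.inl hh)
      exact ih z hz1 hsz (insert x A') (insert_comm _ _ _) (mem_insert_of_mem _ hw) hnext

section

variable {𝓛 : Set (Set V)}

theorem start (ht : Transitive 𝓛) (h : P1Win 𝓛) {v w : V} (hvw : v ≠ w) :
    WinPos 𝓛 {v} {w} ∧ Safe 𝓛 {v} := by
  cases h with
  | move _ _ x hx hs hn =>
    rw [insert_empty_eq] at hs
    have hsing : ∀ u : V, Safe 𝓛 {u} := by
      intro u
      obtain ⟨g, hg, hgx⟩ := ht x u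
      have := (safe_image hg {x}).2 hs
      rwa [image_singleton, hgx] at this
    refine ⟨?_, hsing v⟩
    obtain ⟨g, hg, hgx⟩ := ht x v
    obtain ⟨y, hy⟩ := g.surjective w
    have hyx : y ≠ x := by
      rintro rfl
      exact hvw (hgx.symm.trans hy)
    have h1 := hn y (by simpa using hyx) (by rw [insert_empty_eq]; exact hsing y)
    rw [insert_empty_eq, insert_empty_eq] at h1
    have h2 := h1.image hg
    rwa [image_singleton, image_singleton, hgx, hy] at h2

/-- two points never contain a line in a transitive game that P1 wins -/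
theorem safe_pair (ht : Transitive 𝓛) (h : P1Win 𝓛) {v w : V} (hvw : v ≠ w) : Safe 𝓛 {v, w} := by
  by_contra hc
  obtain ⟨h1, -⟩ := start ht h hvw
  refine steal hc h1 ∅ (insert_empty_eq v).symm (mem_singleton w) ?_
  intro y hy _
  rw [insert_empty_eq]
  exact (start ht h (fun hh => hy (Or.inl (by rw [hh]; rfl)))).1

/-- three different points that contain no line -/
def S3 (𝓛 : Set (Set V)) (x y z : V) : Prop := x ≠ y ∧ x ≠ z ∧ y ≠ z ∧ Safe 𝓛 {x, y, z}

theorem S3.swap12 {x y z : V} (h : S3 𝓛 x y z) : S3 𝓛 y x z :=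
  ⟨h.1.symm, h.2.2.1, h.2.1, by rw [insert_comm]; exact h.2.2.2⟩

theorem S3.swap23 {x y z : V} (h : S3 𝓛 x y z) : S3 𝓛 x z y :=
  ⟨h.2.1, h.1, h.2.2.1.symm, by rw [pair_comm]; exact h.2.2.2⟩

theorem S3.image {g : Equiv.Perm V} (hg : IsAut 𝓛 g) {x y z : V} (h : S3 𝓛 x y z) :
    S3 𝓛 (g x) (g y) (g z) := by
  refine ⟨g.injective.ne h.1, g.injective.ne h.2.1, g.injective.ne h.2.2.1, ?_⟩
  have := (safe_image hg _).2 h.2.2.2
  rwa [image_insert_eq, image_insert_eq, image_singleton] at this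

/-- the first moves, when four points always contain a line -/
theorem moves (ht : Transitive 𝓛) (h : P1Win 𝓛)
    (h4 : ∀ a b c d : V, a ≠ b → a ≠ c → a ≠ d → b ≠ c → b ≠ d → c ≠ d → ¬ Safe 𝓛 {a, b, c, d})
    {v w : V} (hvw : v ≠ w) : ∃ v2, v2 ≠ v ∧ v2 ≠ w ∧ ∀ w2, w2 ≠ v → w2 ≠ w → w2 ≠ v2 →
      ∃ v3, S3 𝓛 v v2 v3 ∧ v3 ≠ w ∧ v3 ≠ w2 ∧ ∀ c, S3 𝓛 w w2 c → c = v ∨ c = v2 ∨ c = v3 := by
  obtain ⟨h1, -⟩ := start ht h hvw
  cases h1 with
  | move _ _ v2 hv2 hs2 hn2 =>
    simp only [mem_union, mem_singleton_iff, not_or] at hv2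
    refine ⟨v2, hv2.1, hv2.2, fun w2 h1 h2 h3 => ?_⟩
    have h5 := hn2 w2 (by simp [h1, h2, h3]) (safe_pair ht h h2)
    cases h5 with
    | move _ _ v3 hv3 hs3 hn3 =>
      simp only [mem_union, mem_insert_iff, mem_singleton_iff, not_or] at hv3
      obtain ⟨⟨a1, a2⟩, a3, a4⟩ := hv3
      refine ⟨v3, ⟨Ne.symm hv2.1, Ne.symm a2, Ne.symm a1, ?_⟩, a4, a3, fun c hc => ?_⟩
      · refine hs3.mono ?_
        rintro a (rfl | rfl | rfl) <;> simp
      · by_contra hne
        rw [not_or, not_or] at hne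
        obtain ⟨n1, n2, n3⟩ := hne
        have h6 := hn3 c (by simp [n1, n2, n3, hc.2.1.symm, hc.2.2.1.symm]) (by
          refine hc.2.2.2.mono ?_
          rintro a (rfl | rfl | rfl) <;> simp)
        cases h6 with
        | move _ _ v4 hv4 hs4 _ =>
          simp only [mem_union, mem_insert_iff, mem_singleton_iff, not_or] at hv4
          obtain ⟨⟨b1, b2, b3⟩, -⟩ := hv4
          exact h4 v4 v3 v2 v b1 b2 b3 a1 a2 hv2.1 hs4

/-- Some four points contain no line. -/
theorem four [Infinite V] (ht : Transitive 𝓛) (h : P1Win 𝓛) :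
    ∃ a b c d : V, a ≠ b ∧ a ≠ c ∧ a ≠ d ∧ b ≠ c ∧ b ≠ d ∧ c ≠ d ∧ Safe 𝓛 {a, b, c, d} := by
  by_contra hcon
  have h4 : ∀ a b c d : V, a ≠ b → a ≠ c → a ≠ d → b ≠ c → b ≠ d → c ≠ d →
      ¬ Safe 𝓛 {a, b, c, d} := fun a b c d e1 e2 e3 e4 e5 e6 hs =>
    hcon ⟨a, b, c, d, e1, e2, e3, e4, e5, e6, hs⟩
  -- a point outside a finite set
  have fresh : ∀ F : Set V, F.Finite → ∃ x, x ∉ F := fun F hF => hF.exists_notMem
  let T : V → V → Set V := fun x y => {z | S3 𝓛 x y z}
  have Tsymm : ∀ x y, T x y = T y x := by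
    intro x y
    ext z
    exact ⟨fun hh => hh.swap12, fun hh => hh.swap12⟩
  have Trot : ∀ {x y z}, z ∈ T x y → y ∈ T x z := fun hh => S3.swap23 hh
  -- the key fact
  have key : ∀ v w : V, v ≠ w → ∃ v2, v2 ≠ v ∧ v2 ≠ w ∧ (∀ w2, w2 ≠ v → w2 ≠ w → w2 ≠ v2 →
      ((T v v2) \ {w, w2}).Nonempty ∧ ∃ v3 ∈ T v v2, T w w2 ⊆ {v, v2, v3}) := by
    intro v w hvw
    obtain ⟨v2, k1, k2, k3⟩ := moves ht h h4 hvw
    refine ⟨v2, k1, k2, fun w2 l1 l2 l3 => ?_⟩
    obtain ⟨v3, m1, m2, m3, m4⟩ := k3 w2 l1 l2 l3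
    exact ⟨⟨v3, m1, by simp [m2, m3]⟩, v3, m1, fun c hc => m4 c hc⟩
  -- every point lies in a safe triple
  have trip : ∀ x, ∃ y z, z ∈ T x y := by
    intro x
    obtain ⟨w, hw⟩ := fresh {x} (finite_singleton x)
    have hxw : x ≠ w := fun hh => hw (by rw [hh]; rfl)
    obtain ⟨v2, k1, k2, k3⟩ := key x w hxw
    obtain ⟨w2, hw2⟩ := fresh {x, w, v2} (by simp)
    simp only [mem_insert_iff, mem_singleton_iff, not_or] at hw2
    obtain ⟨-, v3, m1, -⟩ := k3 w2 hw2.1 hw2.2.1 hw2.2.2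
    exact ⟨v2, v3, m1⟩
  -- a bound for the points in safe triples, from finiteness
  have bound : ∀ v w v2 : V, v ≠ w → (T v v2).Finite → (T w v).Finite →
      (∀ w2, w2 ≠ v → w2 ≠ w → w2 ≠ v2 → ∃ v3 ∈ T v v2, T w w2 ⊆ {v, v2, v3}) →
      ∃ F : Set V, F.Finite ∧ ∀ y, y ∉ F → T w y ⊆ {v2} := by
    intro v w v2 hvw hf1 hf2 hk
    refine ⟨{v, w, v2} ∪ T v v2 ∪ T w v, ((Set.toFinite _).union hf1).union hf2, fun y hy c hc => ?_⟩
    simp only [mem_union, mem_insert_iff, mem_singleton_iff, not_or] at hy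
    obtain ⟨⟨⟨y1, y2, y3⟩, y4⟩, y5⟩ := hy
    by_contra hc2
    rw [mem_singleton_iff] at hc2
    have hcv : c ≠ v := by
      rintro rfl
      exact y5 (Trot hc)
    have hcw : c ≠ w := hc.2.1.symm
    obtain ⟨v3, m1, m2⟩ := hk c hcv hcw hc2
    rcases m2 (Trot hc) with e | e | e
    · exact y1 e
    · exact y3 e
    · rw [e] at y4
      exact y4 m1
  by_cases hbig : ∃ x y, (T x y).Infinite
  · -- every point has exactly one partner
    have big : ∀ x, ∃ y, (T x y).Infinite := by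
      intro x
      obtain ⟨a, b, hab⟩ := hbig
      obtain ⟨g, hg, rfl⟩ := ht a x
      refine ⟨g b, ?_⟩
      refine (hab.image (g.injective.injOn)).mono ?_
      rintro _ ⟨z, hz, rfl⟩
      exact S3.image hg hz
    have ne_of_big : ∀ {x y}, (T x y).Infinite → x ≠ y := by
      intro x y hxy
      obtain ⟨z, hz⟩ := hxy.nonempty
      exact hz.1
    -- `v2` is the partner of `w`
    have part : ∀ v w y, v ≠ w → y ≠ v → (T w y).Infinite → ∀ v2,
        (∀ w2, w2 ≠ v → w2 ≠ w → w2 ≠ v2 → ∃ v3 ∈ T v v2, T w w2 ⊆ {v, v2, v3}) → v2 = y := by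
      intro v w y hvw hyv hinf v2 hk
      by_contra hne
      obtain ⟨v3, -, m2⟩ := hk y hyv (ne_of_big hinf).symm (fun hh => hne hh.symm)
      exact hinf ((Set.toFinite _).subset m2)
    have uniq : ∀ w y y', (T w y).Infinite → (T w y').Infinite → y = y' := by
      intro w y y' hy hy'
      obtain ⟨v, hv⟩ := fresh {w, y, y'} (by simp)
      simp only [mem_insert_iff, mem_singleton_iff, not_or] at hv
      obtain ⟨v2, k1, k2, k3⟩ := key v w hv.1
      have e1 := part v w y hv.1 (fun hh => hv.2.1 hh.symm) hy v2 (fun w2 a b c => (k3 w2 a b c).2)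
      have e2 := part v w y' hv.1 (fun hh => hv.2.2 hh.symm) hy' v2 (fun w2 a b c => (k3 w2 a b c).2)
      exact e1.symm.trans e2
    -- almost all pairs have only the partner as third point
    have alm : ∀ w y, (T w y).Infinite → ∃ F : Set V, F.Finite ∧ ∀ u, u ∉ F → T w u ⊆ {y} := by
      intro w y hy
      obtain ⟨v, hv⟩ := fresh {w, y} (by simp)
      simp only [mem_insert_iff, mem_singleton_iff, not_or] at hv
      obtain ⟨v2, k1, k2, k3⟩ := key v w hv.1
      have e := part v w y hv.1 (fun hh => hv.2 hh.symm) hy v2 (fun w2 a b c => (k3 w2 a b c).2)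
      subst e
      refine bound v w v2 hv.1 ?_ ?_ (fun w2 a b c => (k3 w2 a b c).2)
      · by_contra hc
        exact hv.1 (uniq v2 v w (by rw [Tsymm]; exact hc) (by rw [Tsymm]; exact hy))
      · by_contra hc
        exact hv.2 (uniq w v v2 hc hy)
    obtain ⟨w, -⟩ := fresh ∅ finite_empty
    obtain ⟨y, hy⟩ := big w
    have hyw : (T y w).Infinite := by rw [Tsymm]; exact hy
    obtain ⟨F, hF, hF2⟩ := alm y w hyw
    obtain ⟨v, hv⟩ := fresh (F ∪ {w, y}) (hF.union (Set.toFinite _))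
    simp only [mem_union, mem_insert_iff, mem_singleton_iff, not_or] at hv
    obtain ⟨v2, k1, k2, k3⟩ := key v w hv.2.1
    have e := part v w y hv.2.1 (fun hh => hv.2.2 hh.symm) hy v2 (fun w2 a b c => (k3 w2 a b c).2)
    subst e
    obtain ⟨w2, hw2⟩ := fresh {v, w, v2} (by simp)
    simp only [mem_insert_iff, mem_singleton_iff, not_or] at hw2
    obtain ⟨⟨c, hc1, hc2⟩, -⟩ := k3 w2 hw2.1 hw2.2.1 hw2.2.2
    rw [Tsymm] at hc1
    have := hF2 v hv.1 hc1
    rw [mem_singleton_iff] at this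
    exact hc2 (by simp [this])
  · -- all the sets `T x y` are finite
    have fin : ∀ x y, (T x y).Finite := by
      intro x y
      by_contra hc
      exact hbig ⟨x, y, hc⟩
    let E : V → Set V := fun x => {y | (T x y).Nonempty}
    have Esymm : ∀ {x y}, y ∈ E x → x ∈ E y := by
      intro x y hh
      show (T y x).Nonempty
      rw [Tsymm]
      exact hh
    have Efin : ∀ w, (E w).Finite := by
      intro w
      obtain ⟨v, hv⟩ := fresh {w} (finite_singleton w)
      rw [mem_singleton_iff] at hv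
      obtain ⟨v2, k1, k2, k3⟩ := key v w hv
      obtain ⟨F, hF, hF2⟩ := bound v w v2 hv (fin _ _) (fin _ _) (fun w2 a b c => (k3 w2 a b c).2)
      refine (hF.union (fin w v2)).subset ?_
      rintro y ⟨c, hc⟩
      by_contra hy
      rw [mem_union, not_or] at hy
      have := hF2 y hy.1 hc
      rw [mem_singleton_iff] at this
      subst this
      exact hy.2 (Trot hc)
    obtain ⟨v, -⟩ := fresh ∅ finite_empty
    obtain ⟨w, hw⟩ := fresh ({v} ∪ E v ∪ ⋃ x ∈ E v, E x)
      (((finite_singleton v).union (Efin v)).union ((Efin v).biUnion fun x _ => Efin x))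
    simp only [mem_union, mem_singleton_iff, not_or, mem_iUnion, not_exists] at hw
    obtain ⟨⟨hwv, hwE⟩, hwE2⟩ := hw
    obtain ⟨v2, k1, k2, k3⟩ := key v w (fun hh => hwv hh.symm)
    obtain ⟨p, q, hq⟩ := trip w
    -- an edge `w`, `w2` with `w2 ≠ v2` and a third point `c`
    obtain ⟨w2, c, hc, hne⟩ : ∃ w2 c, c ∈ T w w2 ∧ w2 ≠ v2 := by
      by_cases hp : p = v2
      · refine ⟨q, p, Trot hq, fun hh => ?_⟩
        exact hq.2.2.1 (hp.trans hh.symm)
      · exact ⟨p, q, hq, hp⟩
    have hw2v : w2 ≠ v := by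
      rintro rfl
      exact hwE (Esymm ⟨c, hc⟩)
    obtain ⟨-, v3, m1, m2⟩ := k3 w2 hw2v hc.1.symm hne
    have hcE : c ∈ E w := ⟨w2, Trot hc⟩
    rcases m2 hc with e | e | e
    · rw [e] at hcE
      exact hwE (Esymm hcE)
    · rw [e] at hcE
      exact hwE2 v2 ⟨v3, m1⟩ (Esymm hcE)
    · rw [mem_singleton_iff] at e
      rw [e] at hcE
      exact hwE2 v3 ⟨v2, Trot m1⟩ (Esymm hcE)

end

/-- the orbit of `x` under the automorphisms that fix every point of `F` -/
def StabOrbit (𝓛 : Set (Set V)) (F : Set V) (x : V) : Set V :=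
  {y | ∃ g : Equiv.Perm V, IsAut 𝓛 g ∧ (∀ f ∈ F, g f = f) ∧ g x = y}

/-- P2 copies the moves of P1 with an automorphism. -/
theorem imitate {𝓛 : Set (Set V)}
    (hno : ∀ (F : Set V) (x : V), F.Finite → x ∉ F → Safe 𝓛 (insert x F) →
      ¬ ((StabOrbit 𝓛 F x).Finite ∧ (StabOrbit 𝓛 F x).ncard ≤ F.ncard + 1))
    {A B : Set V} (h : WinPos 𝓛 A B) :
    A.Finite → (∃ g : Equiv.Perm V, IsAut 𝓛 g ∧ B = g '' A) → False := by
  induction h with
  | move A B x hx hs _ ih =>
    rintro hA ⟨g, hg, rfl⟩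
    rw [mem_union, not_or] at hx
    have hdis : ∀ y ∈ StabOrbit 𝓛 A x, y ∉ A := by
      rintro y ⟨k, hk, hkA, hkx⟩ hy
      have e : k y = k x := (hkA y hy).trans hkx.symm
      rw [k.injective e] at hy
      exact hx.1 hy
    obtain ⟨y, hy, hy2⟩ : ∃ y ∈ StabOrbit 𝓛 A x, g y ∉ insert x A := by
      by_contra hc
      have hsub : g '' StabOrbit 𝓛 A x ⊆ insert x A := by
        rintro _ ⟨y, hy, rfl⟩
        by_contra hh
        exact hc ⟨y, hy, hh⟩
      have hfin : (g '' StabOrbit 𝓛 A x).Finite := (hA.insert x).subset hsub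
      refine hno A x hA hx.1 hs ⟨hfin.of_finite_image g.injective.injOn, ?_⟩
      rw [← ncard_image_of_injective _ g.injective, ← ncard_insert_of_notMem hx.1 hA]
      exact ncard_le_ncard hsub (hA.insert x)
    obtain ⟨k, hk, hkA, hkx⟩ := id hy
    have hgk : IsAut 𝓛 (k.trans g) := by
      intro L
      have e : (k.trans g) '' L = g '' (k '' L) := by
        rw [← image_comp]
        rfl
      rw [e, hg, hk]
    have e1 : (k.trans g) '' A = g '' A := by
      ext z
      constructor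
      · rintro ⟨a, ha, rfl⟩
        exact ⟨a, ha, by simp [hkA a ha]⟩
      · rintro ⟨a, ha, rfl⟩
        exact ⟨a, ha, by simp [hkA a ha]⟩
    have e2 : insert (g y) (g '' A) = (k.trans g) '' (insert x A) := by
      rw [image_insert_eq, e1]
      congr 1
      simp [hkx]
    refine ih (g y) ?_ ?_ (hA.insert x) ⟨k.trans g, hgk, e2⟩
    · rintro (hh | hh)
      · exact hy2 hh
      · obtain ⟨z, hz, hzy⟩ := hh
        rw [g.injective hzy] at hz
        exact hdis y hy hz
    · rw [e2]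
      exact (safe_image hgk _).2 hs

end Pool.Agent.H809AV
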